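import Pool.Agent.H50.ODG.Targets
import Pool.Agent.H7.CP.NCD
import Pool.Agent.H5.CP.NCE

/-!
# MP_397744_co: module D0D of the board `odg_modules`
-/

set_option autoImplicit false

namespace Pool.Agent.H85.ODG.D0D

open Pool.Agent.H57.CP Pool.Agent.H39.TO Pool.Agent.H39.OD Pool.Agent.H50.ODG

open Pool.Agent.H7.CP (u0 u1 u2 a0symm a1symm a2symm sy_inv sy_one sy_mul act_mul act_one
  act_inv_act im2_mul im_mul im_one im2_one edge_pair face_orbit StF mem_StF stf_mem two_set)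

/-- symmetries form a subgroup -/
lemma cl_sy {K : Geo} {S : Set (Equiv.Perm H3)} (hS : ∀ g ∈ S, Sy K g) {g : Equiv.Perm H3}
    (hg : g ∈ Subgroup.closure S) : Sy K g := by
  induction hg using Subgroup.closure_induction with
  | mem x hx => exact hS x hx
  | one => exact sy_one K
  | mul x y _ _ hx hy => exact sy_mul hx hy
  | inv x _ hx => exact sy_inv hx

lemma pow_sy {K : Geo} {g : Equiv.Perm H3} (hg : Sy K g) (m : ℕ) : Sy K (g ^ m) := by
  induction m with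
  | zero => rw [pow_zero]; exact sy_one K
  | succ m ih => rw [pow_succ]; exact sy_mul ih hg

/-- the data: a base flag `Φ`, its neighbours `Φ1`, `Φ2` -/
structure Dat (K : Geo) (Φ Φ1 Φ2 : Fg) (D r : Equiv.Perm H3) : Prop where
  sD : Sy K D
  sr : Sy K r
  a0 : A0 K Φ (act r Φ)
  a1 : A1 K Φ Φ1
  a12 : A2 K Φ1 (act D Φ)
  e2 : Φ2 = act D⁻¹ Φ1
  a2 : A2 K Φ Φ2
  a0' : A0 K Φ2 (act r Φ2)
  a01 : A0 K Φ1 (act (D * r * D⁻¹) Φ1)
  no : ¬ Eqv K Φ Φ2

lemma exd (hFLA : T_FLA) (hFLB : T_FLB) {K : Geo} (hK : IsGeo K) (hT : Two K) (i0 : In K 0) (o1 : Out K 1)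
    (o2 : Out K 2) : ∃ Φ Φ1 Φ2 D r, Dat K Φ Φ1 Φ2 D r := by
  obtain ⟨Φ, _, hΦ, -, -⟩ := hT.two
  obtain ⟨Φ0, a0, -⟩ := (hFLA K hK Φ hΦ).1
  obtain ⟨Φ1, a1, -⟩ := (hFLA K hK Φ hΦ).2.1
  obtain ⟨Φ12, a12, -⟩ := (hFLA K hK Φ1 a1.2.1).2.2
  have hD : Eqv K Φ Φ12 := by
    rcases hT.le_two Φ Φ1 Φ12 hΦ a1.2.1 a12.2.1 with h | h | h
    · exact absurd h (o1 _ _ a1)
    · exact absurd h (o2 _ _ a12)
    · exact h
  obtain ⟨D, sD, rfl⟩ := hD
  obtain ⟨r, sr, rfl⟩ := i0 _ _ a0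
  have sDi : Sy K D⁻¹ := sy_inv sD
  have a2 : A2 K Φ (act D⁻¹ Φ1) := by
    have h := (hFLB K D⁻¹ sDi _ _).2.2.2 (a2symm a12)
    rw [act_inv_act] at h
    exact h
  have a0' : A0 K (act D⁻¹ Φ1) (act r (act D⁻¹ Φ1)) := by
    obtain ⟨Φ2, hΦ2⟩ : ∃ Φ2, Φ2 = act D⁻¹ Φ1 := ⟨_, rfl⟩
    rw [← hΦ2] at a2 ⊢
    -- the flag `(v1, e, f')` is the 2-neighbour of `act r Φ`
    have hfl : Fl K ((act r Φ).1, Φ2.2.1, Φ2.2.2) := by
      refine ⟨?_, a2.2.1.2.1, a2.2.1.2.2⟩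
      change (act r Φ).1 ∈ Φ2.2.1
      rw [← a2.2.2.2.1, a0.2.2.2.1]
      exact a0.2.1.1
    have hA : A2 K (act r Φ) ((act r Φ).1, Φ2.2.1, Φ2.2.2) := by
      refine ⟨a0.2.1, hfl, rfl, ?_, ?_⟩
      · change (act r Φ).2.1 = Φ2.2.1
        rw [← a0.2.2.2.1, a2.2.2.2.1]
      · change (act r Φ).2.2 ≠ Φ2.2.2
        rw [← a0.2.2.2.2]
        exact a2.2.2.2.2
    have he : act r Φ2 = ((act r Φ).1, Φ2.2.1, Φ2.2.2) :=
      u2 hFLA hK ((hFLB K r sr _ _).2.2.2 a2) hA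
    rw [he]
    refine ⟨a2.2.1, hfl, ?_, rfl, rfl⟩
    change Φ2.1 ≠ (act r Φ).1
    rw [← a2.2.2.1]
    exact a0.2.2.1
  have a01 : A0 K Φ1 (act (D * r * D⁻¹) Φ1) := by
    have h := (hFLB K D sD _ _).2.1 a0'
    rw [← act_mul D D⁻¹, mul_inv_cancel, act_one, ← act_mul, ← act_mul] at h
    exact h
  exact ⟨Φ, Φ1, _, D, r, sD, sr, a0, a1, a12, rfl, a2, a0', a01, o2 _ _ a2⟩

/-- all flags -/
lemma all (hFLA : T_FLA) (hFLB : T_FLB) (hFLC : T_FLC) {K : Geo} (hK : IsGeo K) {Φ Φ1 Φ2 : Fg}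
    {D r : Equiv.Perm H3} (d : Dat K Φ Φ1 Φ2 D r) (Ψ : Fg) (hΨ : Fl K Ψ) :
    ∃ g ∈ Gr D r, Ψ = act g Φ ∨ Ψ = act g Φ2 := by
  have hpath := hFLC K hK Φ Ψ d.a0.1 hΨ
  clear hΨ
  have mD : D ∈ Gr D r := Subgroup.subset_closure (by simp)
  have mr : r ∈ Gr D r := Subgroup.subset_closure (by simp)
  have hS : ∀ g ∈ ({D, r} : Set (Equiv.Perm H3)), Sy K g := by
    intro g hg
    rcases hg with rfl | hg
    · exact d.sD
    · rw [Set.mem_singleton_iff] at hg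
      rw [hg]
      exact d.sr
  have e1 : Φ1 = act D Φ2 := by
    rw [d.e2, ← act_mul, mul_inv_cancel, act_one]
  induction hpath with
  | refl => exact ⟨1, one_mem _, Or.inl (act_one Φ).symm⟩
  | tail hpq hstep ih =>
    rename_i Θ Ψ
    obtain ⟨g, hg, hor⟩ := ih
    have sg : Sy K g := cl_sy hS hg
    rcases hor with rfl | rfl
    · rcases hstep with hs | hs | hs
      · refine ⟨g * r, mul_mem hg mr, Or.inl ?_⟩
        rw [act_mul]
        exact u0 hFLA hK hs ((hFLB K g sg _ _).2.1 d.a0)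
      · refine ⟨g * D, mul_mem hg mD, Or.inr ?_⟩
        rw [act_mul, ← e1]
        exact u1 hFLA hK hs ((hFLB K g sg _ _).2.2.1 d.a1)
      · exact ⟨g, hg, Or.inr (u2 hFLA hK hs ((hFLB K g sg _ _).2.2.2 d.a2))⟩
    · rcases hstep with hs | hs | hs
      · refine ⟨g * r, mul_mem hg mr, Or.inr ?_⟩
        rw [act_mul]
        exact u0 hFLA hK hs ((hFLB K g sg _ _).2.1 d.a0')
      · refine ⟨g * D⁻¹, mul_mem hg (inv_mem mD), Or.inl ?_⟩
        rw [act_mul]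
        have h := (hFLB K g sg _ _).2.2.1 ((hFLB K D⁻¹ (sy_inv d.sD) _ _).2.2.1 (a1symm d.a1))
        rw [← d.e2] at h
        exact u1 hFLA hK hs h
      · exact ⟨g, hg, Or.inl (u2 hFLA hK hs ((hFLB K g sg _ _).2.2.2 (a2symm d.a2)))⟩

/-- walking around a vertex -/
lemma wv (hFLB : T_FLB) (hFLD : T_FLD) (hCYV : T_CYV) {K : Geo} {q : ℕ} (hK : IsGeo K)
    {Φ Φ1 Φ2 : Fg} {D r : Equiv.Perm H3} (d : Dat K Φ Φ1 Φ2 D r) (hq : (eds K Φ.1).encard = (q : ℕ∞)) :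
    (∀ m : ℕ, (D ^ m : Equiv.Perm H3) '' Φ.2.1 = Φ.2.1 ↔ q ∣ m) ∧ ∀ z ∈ K.V, (D ^ q) z = z := by
  have sR : Sy K D := d.sD
  obtain ⟨W, w2, w3⟩ : ∃ W : ℕ → Fg, (∀ m, W (2 * m) = act (D ^ m) Φ) ∧
      ∀ m, W (2 * m + 1) = act (D ^ m) Φ1 := by
    refine ⟨fun k => if k % 2 = 0 then act (D ^ (k / 2)) Φ else
      act (D ^ (k / 2)) Φ1, ?_, ?_⟩
    · intro m
      have e1 : (2 * m) % 2 = 0 := by omega
      have e4 : (2 * m) / 2 = m := by omega
      simp only [if_pos e1, e4]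
    · intro m
      have e1 : ¬ (2 * m + 1) % 2 = 0 := by omega
      have e4 : (2 * m + 1) / 2 = m := by omega
      simp only [if_neg e1, e4]
  have w0 : W 0 = Φ := by
    have h := w2 0
    rw [pow_zero, act_one] at h
    exact h
  have walk := hCYV K W (q : ℕ∞) hK (by
      intro k
      have e6 : 2 * k + 2 = 2 * (k + 1) := by ring
      rw [e6, w2, w2, w3]
      refine ⟨(hFLB K _ (pow_sy sR k) _ _).2.2.1 d.a1, ?_⟩
      have h := (hFLB K _ (pow_sy sR k) _ _).2.2.2 d.a12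
      rw [← act_mul _ D, ← pow_succ] at h
      exact h) (by
      rw [w0]
      exact hq)
  obtain ⟨c1, c2, -⟩ := walk
  have Sm : ∀ m : ℕ, (D ^ m : Equiv.Perm H3) '' Φ.2.1 = Φ.2.1 ↔ q ∣ m := by
    intro m
    rcases Nat.eq_zero_or_pos m with rfl | hm
    · simp
    · have h := c1 m hm
      rw [w2 m, w0] at h
      constructor
      · intro h1
        obtain ⟨n, hn, hd⟩ := h.1 h1
        have : q = n := by exact_mod_cast hn
        rw [this]
        exact hd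
      · intro h1
        exact h.2 ⟨q, rfl, h1⟩
  refine ⟨Sm, ?_⟩
  have h1 : (D ^ q : Equiv.Perm H3) '' Φ.2.1 = Φ.2.1 := (Sm q).2 (dvd_refl q)
  have h2 := c2 q (by rw [w2 q, w0]; exact h1)
  rw [w2 q, w0] at h2
  exact hFLD K hK (D ^ q) 1 (pow_sy sR q) (sy_one K) _ d.a1.1 (h2.trans (act_one _).symm)

/-- walking around the face -/
lemma wf (hFLB : T_FLB) (hFLD : T_FLD) (hCYF : T_CYF) {K : Geo} {p : ℕ} (hK : IsGeo K) {Φ Φ1 Φ2 : Fg}
    {D r : Equiv.Perm H3} (d : Dat K Φ Φ1 Φ2 D r) (hp : (vts Φ.2.2).encard = (p : ℕ∞)) :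
    0 < p ∧ ∀ z ∈ K.V, ((r * (D * r * D⁻¹)) ^ p) z = z := by
  obtain ⟨r', hr'⟩ : ∃ r', r' = D * r * D⁻¹ := ⟨_, rfl⟩
  rw [← hr']
  have a01 := d.a01
  rw [← hr'] at a01
  have sr' : Sy K r' := by
    rw [hr']
    exact sy_mul (sy_mul d.sD d.sr) (sy_inv d.sD)
  have sR : Sy K (r * r') := sy_mul d.sr sr'
  have hp0 : 0 < p := by
    rcases Nat.eq_zero_or_pos p with h | h
    · exfalso
      rw [h] at hp
      have h1 : vts Φ.2.2 = ∅ := Set.encard_eq_zero.1 hp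
      have h2 : Φ.1 ∈ vts Φ.2.2 := ⟨Φ.2.1, d.a0.1.2.1, d.a0.1.1⟩
      rw [h1] at h2
      exact h2
    · exact h
  obtain ⟨W, w0, w1, w2, w3⟩ : ∃ W : ℕ → Fg, (∀ m, W (4 * m) = act ((r * r') ^ m) Φ) ∧
      (∀ m, W (4 * m + 1) = act ((r * r') ^ m) (act r Φ)) ∧
      (∀ m, W (4 * m + 2) = act ((r * r') ^ m) (act r Φ1)) ∧
      ∀ m, W (4 * m + 3) = act ((r * r') ^ m) (act r (act r' Φ1)) := by
    refine ⟨fun k => if k % 4 = 0 then act ((r * r') ^ (k / 4)) Φ else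
      if k % 4 = 1 then act ((r * r') ^ (k / 4)) (act r Φ) else
      if k % 4 = 2 then act ((r * r') ^ (k / 4)) (act r Φ1) else
      act ((r * r') ^ (k / 4)) (act r (act r' Φ1)), ?_, ?_, ?_, ?_⟩
    · intro m
      have e1 : (4 * m) % 4 = 0 := by omega
      have e4 : (4 * m) / 4 = m := by omega
      simp only [if_pos e1, e4]
    · intro m
      have e1 : ¬ (4 * m + 1) % 4 = 0 := by omega
      have e2 : (4 * m + 1) % 4 = 1 := by omega
      have e4 : (4 * m + 1) / 4 = m := by omega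
      simp only [if_neg e1, if_pos e2, e4]
    · intro m
      have e1 : ¬ (4 * m + 2) % 4 = 0 := by omega
      have e2 : ¬ (4 * m + 2) % 4 = 1 := by omega
      have e3 : (4 * m + 2) % 4 = 2 := by omega
      have e4 : (4 * m + 2) / 4 = m := by omega
      simp only [if_neg e1, if_neg e2, if_pos e3, e4]
    · intro m
      have e1 : ¬ (4 * m + 3) % 4 = 0 := by omega
      have e2 : ¬ (4 * m + 3) % 4 = 1 := by omega
      have e3 : ¬ (4 * m + 3) % 4 = 2 := by omega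
      have e4 : (4 * m + 3) / 4 = m := by omega
      simp only [if_neg e1, if_neg e2, if_neg e3, e4]
  have w00 : W 0 = Φ := by
    have h := w0 0
    rw [pow_zero, act_one] at h
    exact h
  have step : ∀ k, A0 K (W (2 * k)) (W (2 * k + 1)) ∧ A1 K (W (2 * k + 1)) (W (2 * k + 2)) := by
    intro k
    rcases Nat.even_or_odd' k with ⟨m, rfl | rfl⟩
    · have e1 : 2 * (2 * m) = 4 * m := by ring
      rw [e1, w0, w1, w2]
      have hs := pow_sy sR m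
      exact ⟨(hFLB K _ hs _ _).2.1 d.a0, (hFLB K _ hs _ _).2.2.1 ((hFLB K r d.sr _ _).2.2.1 d.a1)⟩
    · have e1 : 2 * (2 * m + 1) = 4 * m + 2 := by ring
      have e2 : 4 * m + 2 + 1 = 4 * m + 3 := by ring
      have e3 : 4 * m + 2 + 2 = 4 * (m + 1) := by ring
      rw [e1, e2, e3, w0, w2, w3]
      have hs := pow_sy sR m
      refine ⟨(hFLB K _ hs _ _).2.1 ((hFLB K r d.sr _ _).2.1 a01), ?_⟩
      have h := (hFLB K _ hs _ _).2.2.1 ((hFLB K r d.sr _ _).2.2.1 ((hFLB K r' sr' _ _).2.2.1 (a1symm d.a1)))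
      rw [← act_mul r r' Φ, ← act_mul _ (r * r') Φ, ← pow_succ] at h
      exact h
  obtain ⟨c1, c2, -⟩ := hCYF K W (p : ℕ∞) hK step (by rw [w00]; exact hp)
  refine ⟨hp0, ?_⟩
  have h1 : (W (2 * (2 * p))).1 = (W 0).1 := (c1 (2 * p) (by omega)).2 ⟨p, rfl, ⟨2, by ring⟩⟩
  have h2 := c2 (2 * p) h1
  have e1 : 2 * (2 * p) = 4 * p := by ring
  rw [e1, w0, w00] at h2
  exact hFLD K hK ((r * r') ^ p) 1 (pow_sy sR p) (sy_one K) _ d.a1.1 (h2.trans (act_one _).symm)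

/-- the base face -/
lemma bf {K : Geo} (hK : IsGeo K) {x y w : H3} {f : Set (Set H3)}
    {r s : Equiv.Perm H3} (hf : f ∈ K.F) (he : ({x, y} : Set H3) ∈ f) (he1 : ({x, w} : Set H3) ∈ f)
    (hr : r ∈ StF f) (hs : s ∈ StF f) (hne : ({x, y} : Set H3) ≠ {x, w})
    (rx : r x = y) (ry : r y = x) (sx : s x = w) (sw : s w = x) :
    f = {e | ∃ g ∈ Subgroup.closure {r, s}, e = g '' {x, y} ∨ e = g '' {x, w}} := by
  have hle : Subgroup.closure {r, s} ≤ StF f := by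
    rw [Subgroup.closure_le]
    rintro x (rfl | hx)
    · exact hr
    · rw [Set.mem_singleton_iff] at hx
      rw [hx]
      exact hs
  have mr : r ∈ Subgroup.closure ({r, s} : Set (Equiv.Perm H3)) := Subgroup.subset_closure (by simp)
  have ms : s ∈ Subgroup.closure ({r, s} : Set (Equiv.Perm H3)) := Subgroup.subset_closure (by simp)
  have re : r '' ({x, y} : Set H3) = {x, y} := by rw [Set.image_pair, rx, ry, Set.pair_comm]
  have se : s '' ({x, w} : Set H3) = {x, w} := by rw [Set.image_pair, sx, sw, Set.pair_comm]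
  -- the two edges at `g x`
  have two : ∀ g ∈ Subgroup.closure ({r, s} : Set (Equiv.Perm H3)), ∀ l ∈ f, g x ∈ l →
      l = g '' {x, y} ∨ l = g '' {x, w} := by
    intro g hg l hl hxl
    have h1 : g '' ({x, y} : Set H3) ∈ f := stf_mem (hle hg) he
    have h2 : g '' ({x, w} : Set H3) ∈ f := stf_mem (hle hg) he1
    exact two_set (hK.vf f hf _ h1 (g x) (Set.mem_image_of_mem _ (Or.inl rfl)))
      ⟨h1, Set.mem_image_of_mem _ (Or.inl rfl)⟩ ⟨h2, Set.mem_image_of_mem _ (Or.inl rfl)⟩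
      (fun h => hne (Set.image_injective.2 g.injective h)) ⟨hl, hxl⟩
  apply Set.Subset.antisymm
  · intro e he'
    have hp := hK.cf f hf _ he e he'
    clear he'
    induction hp with
    | refl => exact ⟨1, one_mem _, Or.inl (by rw [im_one])⟩
    | tail hpq hstep ih =>
      rename_i k l
      obtain ⟨g, hg, hor⟩ := ih
      obtain ⟨hl, y', hyk, hyl⟩ := hstep
      rcases hor with rfl | rfl
      · obtain ⟨z, hz, rfl⟩ := hyk
        rcases hz with rfl | hz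
        · exact ⟨g, hg, two g hg l hl hyl⟩
        · rw [Set.mem_singleton_iff] at hz
          subst hz
          refine ⟨g * r, mul_mem hg mr, two (g * r) (mul_mem hg mr) l hl ?_⟩
          rw [Equiv.Perm.mul_apply, rx]
          exact hyl
      · obtain ⟨z, hz, rfl⟩ := hyk
        rcases hz with rfl | hz
        · exact ⟨g, hg, two g hg l hl hyl⟩
        · rw [Set.mem_singleton_iff] at hz
          subst hz
          refine ⟨g * s, mul_mem hg ms, two (g * s) (mul_mem hg ms) l hl ?_⟩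
          rw [Equiv.Perm.mul_apply, sx]
          exact hyl
  · rintro _ ⟨g, hg, rfl | rfl⟩
    · exact stf_mem (hle hg) he
    · exact stf_mem (hle hg) he1

end Pool.Agent.H85.ODG.D0D

namespace Pool.Agent.H85.ODG

open Pool.Agent.H57.CP Pool.Agent.H39.TO Pool.Agent.H39.OD Pool.Agent.H50.ODG
open Pool.Agent.H7.CP (u0 u1 u2 a0symm a1symm a2symm sy_inv sy_one sy_mul act_mul act_one
  act_inv_act im2_mul im_mul im_one im2_one edge_pair face_orbit StF mem_StF stf_mem two_set)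
open D0D

theorem pf_D0D (hSYG : T_SYG) (hFLA : T_FLA) (hFLB : T_FLB) (hFLC : T_FLC) (hFLD : T_FLD) (hEQV : T_EQV)
    (hCYF : T_CYF) (hCYV : T_CYV) (hSML : T_SML) : T_D0D := by
  clear hSYG hEQV hSML
  intro K p q hK hT i0 o1 o2 hFS hDG
  obtain ⟨Φ, Φ1, Φ2, D, r, d⟩ := exd hFLA hFLB hK hT i0 o1 o2
  have hall := all hFLA hFLB hFLC hK d
  have heE : Φ.2.1 ∈ K.E := (hK.fs _ d.a0.1.2.2).1 d.a0.1.2.1
  have h0e : Φ.2.1 = r '' Φ.2.1 := d.a0.2.2.2.1
  have h0f : Φ.2.2 = (Set.image r) '' Φ.2.2 := d.a0.2.2.2.2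
  have hrx : r Φ.1 ∈ Φ.2.1 := by
    rw [h0e]
    exact Set.mem_image_of_mem _ d.a0.1.1
  have hxV : Φ.1 ∈ K.V := Pool.Agent.H5.CP.mem_V hK heE d.a0.1.1
  have hp : Φ.2.1 = {Φ.1, r Φ.1} := edge_pair hK heE d.a0.1.1 hrx d.a0.2.2.1
  have hq : (eds K Φ.1).encard = (q : ℕ∞) := by
    have h : (eds K Φ.1).encard ∈ DG K := ⟨Φ.1, hxV, rfl⟩
    rw [hDG] at h
    exact h
  have hpp : (vts Φ.2.2).encard = (p : ℕ∞) := by
    have h : (vts Φ.2.2).encard ∈ FS K := ⟨Φ.2.2, d.a0.1.2.2, rfl⟩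
    rw [hFS] at h
    exact h
  obtain ⟨l1, l2⟩ := wv hFLB hFLD hCYV hK d hq
  obtain ⟨n1, n2⟩ := wf hFLB hFLD hCYF hK d hpp
  obtain ⟨x, e, f⟩ := Φ
  obtain ⟨x1, e1, f1⟩ := Φ1
  obtain ⟨x2, e2, f2⟩ := Φ2
  have hx1 : x = x1 := d.a1.2.2.1
  have hf1 : f = f1 := d.a1.2.2.2.2
  have hx2 : x = x2 := d.a2.2.2.1
  have he2 : e = e2 := d.a2.2.2.2.1
  subst hx1 hf1 hx2 he2
  have hpair : e = {x, r x} := hp
  have hne : x ≠ r x := d.a0.2.2.1
  have hee1 : e ≠ e1 := d.a1.2.2.2.1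
  have hDx : D x = x := d.a12.2.2.1.symm
  have hDe : e1 = D '' e := d.a12.2.2.2.1
  have hf2 : f2 = (Set.image (D⁻¹ : Equiv.Perm H3)) '' f := congrArg (fun t => t.2.2) d.e2
  have hre : r '' e = e := h0e.symm
  have hrf : (Set.image r) '' f = f := h0f.symm
  have hff2 : f ≠ f2 := d.a2.2.2.2.2
  have hrr : r (r x) = x := by
    have h : r (r x) ∈ e := by
      rw [← hre]
      exact Set.mem_image_of_mem _ hrx
    rw [hpair] at h
    rcases h with h | h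
    · exact h
    · exact absurd (r.injective h).symm hne
  have hr'f : (Set.image (D * r * D⁻¹ : Equiv.Perm H3)) '' f = f := d.a01.2.2.2.2.symm
  simp only at l1 l2 n1 n2 hq hpp hxV
  subst hpair
  have hDe' : e1 = {x, D (r x)} := by rw [hDe, Set.image_pair, hDx]
  subst hDe'
  have hDi : (D⁻¹ : Equiv.Perm H3) x = x := by
    rw [Equiv.Perm.inv_eq_iff_eq, hDx]
  have hS : ∀ g ∈ ({D, r} : Set (Equiv.Perm H3)), Sy K g := by
    intro g hg
    rcases hg with rfl | hg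
    · exact d.sD
    · rw [Set.mem_singleton_iff] at hg
      rw [hg]
      exact d.sr
  have hG : ∀ g ∈ Gr D r, Sy K g := fun g hg => cl_sy hS hg
  have mD : D ∈ Gr D r := Subgroup.subset_closure (by simp)
  have fixp : ∀ n : ℕ, (D ^ n) x = x := by
    intro n
    induction n with
    | zero => rfl
    | succ n ih => rw [pow_succ, Equiv.Perm.mul_apply, hDx, ih]
  have conv1 : ∀ n : ℕ, (D ^ n) (r x) = r x ↔ q ∣ n := by
    intro n
    rw [← l1 n, Set.image_pair, fixp n]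
    constructor
    · intro h
      rw [h]
    · intro h
      have h1 : (D ^ n) (r x) ∈ ({x, r x} : Set H3) := by
        rw [← h]
        exact Or.inr rfl
      rcases h1 with h1 | h1
      · exact absurd ((D ^ n).injective ((fixp n).trans h1.symm)) hne
      · exact h1
  refine ⟨x, r x, f, D, r, ⟨d.sD, d.sr, d.a0.1, hne, hDx, rfl, hrr, hrf, ?_, conv1, l2, n1, n2, ?_, ?_, ?_, ?_, ?_⟩⟩
  · -- rr
    intro z hz
    have h1 : act (r * r) (x, {x, r x}, f) = act 1 (x, {x, r x}, f) := by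
      rw [act_one, act_mul]
      exact u0 hFLA hK ((hFLB K r d.sr _ _).2.1 d.a0) (a0symm d.a0)
    exact hFLD K hK (r * r) 1 (sy_mul d.sr d.sr) (sy_one K) _ d.a0.1 h1 z hz
  · -- vertices
    ext z
    constructor
    · intro hz
      obtain ⟨k, hk, hzk⟩ := hK.ve z hz
      obtain ⟨j, hj, hkj⟩ := Pool.Agent.H5.CP.exists_face hK hk
      obtain ⟨g, hg, h | h⟩ := hall (z, k, j) ⟨hzk, hkj, hj⟩
      · exact ⟨g, hg, congrArg Prod.fst h⟩
      · exact ⟨g, hg, congrArg Prod.fst h⟩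
    · rintro ⟨g, hg, rfl⟩
      exact ((hG g hg).v x).2 hxV
  · -- edges
    ext k
    constructor
    · intro hk
      obtain ⟨z, hzk⟩ := Pool.Agent.H5.CP.exists_vertex hK hk
      obtain ⟨j, hj, hkj⟩ := Pool.Agent.H5.CP.exists_face hK hk
      obtain ⟨g, hg, h | h⟩ := hall (z, k, j) ⟨hzk, hkj, hj⟩
      · exact ⟨g, hg, congrArg (fun t => t.2.1) h⟩
      · exact ⟨g, hg, congrArg (fun t => t.2.1) h⟩
    · rintro ⟨g, hg, rfl⟩
      exact ((hG g hg).e _).2 heE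
  · -- faces
    ext j
    constructor
    · intro hj
      obtain ⟨hsub, k, hkj⟩ := hK.fs j hj
      obtain ⟨z, hzk⟩ := Pool.Agent.H5.CP.exists_vertex hK (hsub hkj)
      obtain ⟨g, hg, h | h⟩ := hall (z, k, j) ⟨hzk, hkj, hj⟩
      · exact ⟨g, hg, congrArg (fun t => t.2.2) h⟩
      · refine ⟨g * D⁻¹, mul_mem hg (inv_mem mD), ?_⟩
        have h1 : j = (Set.image g) '' f2 := congrArg (fun t => t.2.2) h
        rw [h1, hf2, im2_mul]
    · rintro ⟨g, hg, rfl⟩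
      exact ((hG g hg).f _).2 d.a0.1.2.2
  · -- base face
    have s1 : (D * r * D⁻¹ : Equiv.Perm H3) x = D (r x) := by
      rw [Equiv.Perm.mul_apply, Equiv.Perm.mul_apply, hDi]
    have s2 : (D * r * D⁻¹ : Equiv.Perm H3) (D (r x)) = x := by
      rw [Equiv.Perm.mul_apply, Equiv.Perm.mul_apply]
      have h : (D⁻¹ : Equiv.Perm H3) (D (r x)) = r x := D.symm_apply_apply (r x)
      rw [h, hrr, hDx]
    exact bf hK d.a0.1.2.2 d.a0.1.2.1 d.a1.2.1.2.1 (mem_StF.2 hrf) (mem_StF.2 hr'f) hee1 rfl hrr s1 s2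
  · rintro ⟨g, sg, g1, g2, g3⟩
    apply d.no
    refine ⟨g, sg, ?_⟩
    refine Prod.ext g1 (Prod.ext ?_ (g3.trans hf2.symm))
    change g '' ({x, r x} : Set H3) = {x, r x}
    rw [Set.image_pair, g1, g2]

end Pool.Agent.H85.ODG
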