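import Pool.Agent.H50.ODG.Targets
import Pool.Agent.H7.CP.NCD
import Pool.Agent.H5.CP.NCE

/-!
# MP_397744_co: module D12A of the board `odg_modules`
-/

set_option autoImplicit false

namespace Pool.Agent.H85.ODG.D12A

open Pool.Agent.H57.CP Pool.Agent.H39.TO Pool.Agent.H39.OD Pool.Agent.H50.ODG

open Pool.Agent.H7.CP (u0 u1 u2 a0symm a1symm a2symm sy_inv sy_one sy_mul act_mul act_one
  act_inv_act im2_mul im_mul im_one im2_one edge_pair face_orbit StF mem_StF stf_mem two_set)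

/-- symmetries form a subgroup -/
lemma cl_sy {K : Geo} {S : Set (Equiv.Perm H3)} (hS : ∀ g ∈ S, Sy K g) {g : Equiv.Perm H3}
    (hg : g ∈ Subgroup.closure S) : Sy K g := by
  induction hg using Subgroup.closure_induction with
  | mem x hx => exact hS x hx
  | one => exact sy_one K
  | mul x y _ _ hx hy => exact sy_mul hx hy
  | inv x _ hx => exact sy_inv hx

lemma pow_sy {K : Geo} {g : Equiv.Perm H3} (hg : Sy K g) (m : ℕ) : Sy K (g ^ m) := by
  induction m with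
  | zero => rw [pow_zero]; exact sy_one K
  | succ m ih => rw [pow_succ]; exact sy_mul ih hg

/-- the data: a base flag `Φ`, its 0-neighbour `Φ'` -/
structure Dat (K : Geo) (Φ Φ' : Fg) (a b c : Equiv.Perm H3) : Prop where
  sa : Sy K a
  sb : Sy K b
  sc : Sy K c
  a0 : A0 K Φ Φ'
  a1 : A1 K Φ (act a Φ)
  a1' : A1 K Φ' (act b Φ')
  a2 : A2 K Φ (act c Φ)
  a2' : A2 K Φ' (act c Φ')
  no : ¬ Eqv K Φ Φ'

lemma exd (hFLA : T_FLA) (hFLB : T_FLB) {K : Geo} (hK : IsGeo K) (hT : Two K) (o0 : Out K 0) (i1 : In K 1)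
    (i2 : In K 2) : ∃ Φ Φ' a b c, Dat K Φ Φ' a b c := by
  obtain ⟨Φ, _, hΦ, -, -⟩ := hT.two
  obtain ⟨Φ0, a0, -⟩ := (hFLA K hK Φ hΦ).1
  obtain ⟨Φ1, a1, -⟩ := (hFLA K hK Φ hΦ).2.1
  obtain ⟨Φ2, a2, -⟩ := (hFLA K hK Φ hΦ).2.2
  obtain ⟨Φ01, a01, -⟩ := (hFLA K hK Φ0 a0.2.1).2.1
  obtain ⟨a, sa, rfl⟩ := i1 _ _ a1
  obtain ⟨b, sb, rfl⟩ := i1 _ _ a01
  obtain ⟨c, sc, rfl⟩ := i2 _ _ a2
  refine ⟨Φ, Φ0, a, b, c, sa, sb, sc, a0, a1, a01, a2, ?_, o0 _ _ a0⟩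
  have hcx : Φ.1 = c Φ.1 := a2.2.2.1
  have hce : Φ.2.1 = c '' Φ.2.1 := a2.2.2.2.1
  have hcf : Φ.2.2 ≠ (Set.image c) '' Φ.2.2 := a2.2.2.2.2
  have heE : Φ.2.1 ∈ K.E := (hK.fs _ a0.1.2.2).1 a0.1.2.1
  have h0e : Φ.2.1 = Φ0.2.1 := a0.2.2.2.1
  have h0f : Φ.2.2 = Φ0.2.2 := a0.2.2.2.2
  have h0v : Φ0.1 ∈ Φ.2.1 := by
    rw [h0e]
    exact a0.2.1.1
  have hp : Φ.2.1 = {Φ.1, Φ0.1} := edge_pair hK heE a0.1.1 h0v a0.2.2.1
  have hcx' : c Φ0.1 = Φ0.1 := by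
    have h : c Φ0.1 ∈ Φ.2.1 := by
      rw [hce]
      exact Set.mem_image_of_mem _ h0v
    rw [hp] at h
    rcases h with h | h
    · exact absurd (c.injective (hcx.symm.trans h.symm)) a0.2.2.1
    · exact h
  refine ⟨a0.2.1, ((hFLB K c sc Φ0 Φ0).1 a0.2.1), hcx'.symm, ?_, ?_⟩
  · change Φ0.2.1 = c '' Φ0.2.1
    rw [← h0e]
    exact hce
  · change Φ0.2.2 ≠ (Set.image c) '' Φ0.2.2
    rw [← h0f]
    exact hcf

lemma sq1 (hFLA : T_FLA) (hFLB : T_FLB) {K : Geo} (hK : IsGeo K) {g : Equiv.Perm H3} (sg : Sy K g) {Φ : Fg}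
    (h : A1 K Φ (act g Φ)) : act (g * g) Φ = Φ := by
  rw [act_mul]
  exact u1 hFLA hK ((hFLB K g sg _ _).2.2.1 h) (a1symm h)

lemma sq2 (hFLA : T_FLA) (hFLB : T_FLB) {K : Geo} (hK : IsGeo K) {g : Equiv.Perm H3} (sg : Sy K g) {Φ : Fg}
    (h : A2 K Φ (act g Φ)) : act (g * g) Φ = Φ := by
  rw [act_mul]
  exact u2 hFLA hK ((hFLB K g sg _ _).2.2.2 h) (a2symm h)

/-- all flags -/
lemma all (hFLA : T_FLA) (hFLB : T_FLB) (hFLC : T_FLC) {K : Geo} (hK : IsGeo K) {Φ Φ' : Fg}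
    {a b c : Equiv.Perm H3} (D : Dat K Φ Φ' a b c) (Ψ : Fg) (hΨ : Fl K Ψ) :
    ∃ g ∈ G3 a b c, Ψ = act g Φ ∨ Ψ = act g Φ' := by
  have hpath := hFLC K hK Φ Ψ D.a0.1 hΨ
  clear hΨ
  have ma : a ∈ G3 a b c := Subgroup.subset_closure (by simp)
  have mb : b ∈ G3 a b c := Subgroup.subset_closure (by simp)
  have mc : c ∈ G3 a b c := Subgroup.subset_closure (by simp)
  have hS : ∀ g ∈ ({a, b, c} : Set (Equiv.Perm H3)), Sy K g := by
    intro g hg
    rcases hg with rfl | rfl | hg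
    · exact D.sa
    · exact D.sb
    · rw [Set.mem_singleton_iff] at hg
      rw [hg]
      exact D.sc
  induction hpath with
  | refl => exact ⟨1, one_mem _, Or.inl (act_one Φ).symm⟩
  | tail hpq hstep ih =>
    rename_i Θ Ψ
    obtain ⟨g, hg, hor⟩ := ih
    have sg : Sy K g := cl_sy hS hg
    rcases hor with rfl | rfl
    · rcases hstep with hs | hs | hs
      · exact ⟨g, hg, Or.inr (u0 hFLA hK hs ((hFLB K g sg _ _).2.1 D.a0))⟩
      · refine ⟨g * a, mul_mem hg ma, Or.inl ?_⟩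
        rw [act_mul]
        exact u1 hFLA hK hs ((hFLB K g sg _ _).2.2.1 D.a1)
      · refine ⟨g * c, mul_mem hg mc, Or.inl ?_⟩
        rw [act_mul]
        exact u2 hFLA hK hs ((hFLB K g sg _ _).2.2.2 D.a2)
    · rcases hstep with hs | hs | hs
      · exact ⟨g, hg, Or.inl (u0 hFLA hK hs ((hFLB K g sg _ _).2.1 (a0symm D.a0)))⟩
      · refine ⟨g * b, mul_mem hg mb, Or.inr ?_⟩
        rw [act_mul]
        exact u1 hFLA hK hs ((hFLB K g sg _ _).2.2.1 D.a1')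
      · refine ⟨g * c, mul_mem hg mc, Or.inr ?_⟩
        rw [act_mul]
        exact u2 hFLA hK hs ((hFLB K g sg _ _).2.2.2 D.a2')

/-- all flags at a vertex are equivalent -/
lemma atv (hEQV : T_EQV) {K : Geo} (hK : IsGeo K) (i1 : In K 1) (i2 : In K 2)
    {Φ : Fg} (hΦ : Fl K Φ) (Ψ : Fg) (hΨ : Fl K Ψ) (hv : Ψ.1 = Φ.1) : Eqv K Φ Ψ := by
  obtain ⟨e1, -, e3, -⟩ := hEQV K
  obtain ⟨v, e, f⟩ := Φ
  obtain ⟨x, e', f'⟩ := Ψ
  have hx : x = v := hv
  subst hx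
  -- closed under 1-adjacency and 2-adjacency
  have c1 : ∀ Θ Ξ : Fg, A1 K Θ Ξ → Eqv K (x, e, f) Θ → Eqv K (x, e, f) Ξ := by
    intro Θ Ξ hs h
    exact e3 _ _ _ h (i1 _ _ hs)
  have c2 : ∀ Θ Ξ : Fg, A2 K Θ Ξ → Eqv K (x, e, f) Θ → Eqv K (x, e, f) Ξ := by
    intro Θ Ξ hs h
    exact e3 _ _ _ h (i2 _ _ hs)
  -- if one flag with edge `k` is in the set then all are
  have c3 : ∀ (k : Set H3) (f1 f2 : Set (Set H3)), Fl K (x, k, f1) → Fl K (x, k, f2) →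
      Eqv K (x, e, f) (x, k, f1) → Eqv K (x, e, f) (x, k, f2) := by
    intro k f1 f2 h1 h2 h3
    by_cases h : f1 = f2
    · rw [← h]
      exact h3
    · exact c2 _ _ ⟨h1, h2, rfl, rfl, h⟩ h3
  have heE : e ∈ K.E := (hK.fs f hΦ.2.2).1 hΦ.2.1
  have he'E : e' ∈ K.E := (hK.fs f' hΨ.2.2).1 hΨ.2.1
  have hxV : x ∈ K.V := Pool.Agent.H5.CP.mem_V hK heE hΦ.1
  have hpath := hK.cv x hxV e heE hΦ.1 e' he'E hΨ.1
  have key : ∀ f1 : Set (Set H3), Fl K (x, e', f1) → Eqv K (x, e, f) (x, e', f1) := by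
    clear hΨ he'E hv
    have hxe' : x ∈ e' ∧ ∀ f1 : Set (Set H3), Fl K (x, e', f1) → Eqv K (x, e, f) (x, e', f1) := by
      induction hpath with
      | refl =>
        refine ⟨hΦ.1, fun f1 h1 => c3 e f f1 hΦ h1 (e1 _)⟩
      | tail hpq hstep ih =>
        rename_i k l
        obtain ⟨hxl, f0, hf0, hk, hl⟩ := hstep
        refine ⟨hxl, fun f1 h1 => ?_⟩
        have h2 := ih.2 f0 ⟨ih.1, hk, hf0⟩
        have hfl : Fl K (x, l, f0) := ⟨hxl, hl, hf0⟩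
        apply c3 l f0 f1 hfl h1
        by_cases h : k = l
        · rw [← h]
          exact h2
        · have hfk : Fl K (x, k, f0) := ⟨ih.1, hk, hf0⟩
          have hA : A1 K (x, k, f0) (x, l, f0) := ⟨hfk, hfl, rfl, h, rfl⟩
          exact c1 _ _ hA h2
    exact hxe'.2
  exact key f' hΨ

/-- walking around a vertex -/
lemma wv (hFLB : T_FLB) (hFLD : T_FLD) (hCYV : T_CYV) {K : Geo} {q : ℕ} (hK : IsGeo K)
    {Φ : Fg} (hq : (eds K Φ.1).encard = (q : ℕ∞)) {a c : Equiv.Perm H3} (sa : Sy K a) (sc : Sy K c)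
    (a1 : A1 K Φ (act a Φ)) (a2 : A2 K Φ (act c Φ)) :
    (∀ m : ℕ, ((a * c) ^ m : Equiv.Perm H3) '' Φ.2.1 = Φ.2.1 ↔ q ∣ m) ∧ ∀ z ∈ K.V, ((a * c) ^ q) z = z := by
  have sR : Sy K (a * c) := sy_mul sa sc
  obtain ⟨W, w2, w3⟩ : ∃ W : ℕ → Fg, (∀ m, W (2 * m) = act ((a * c) ^ m) Φ) ∧
      ∀ m, W (2 * m + 1) = act ((a * c) ^ m) (act a Φ) := by
    refine ⟨fun k => if k % 2 = 0 then act ((a * c) ^ (k / 2)) Φ else
      act ((a * c) ^ (k / 2)) (act a Φ), ?_, ?_⟩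
    · intro m
      have e1 : (2 * m) % 2 = 0 := by omega
      have e4 : (2 * m) / 2 = m := by omega
      simp only [if_pos e1, e4]
    · intro m
      have e1 : ¬ (2 * m + 1) % 2 = 0 := by omega
      have e4 : (2 * m + 1) / 2 = m := by omega
      simp only [if_neg e1, e4]
  have w0 : W 0 = Φ := by
    have h := w2 0
    rw [pow_zero, act_one] at h
    exact h
  have walk := hCYV K W (q : ℕ∞) hK (by
      intro k
      have e6 : 2 * k + 2 = 2 * (k + 1) := by ring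
      rw [e6, w2, w2, w3]
      refine ⟨(hFLB K _ (pow_sy sR k) _ _).2.2.1 a1, ?_⟩
      have h := (hFLB K _ (pow_sy sR k) _ _).2.2.2 ((hFLB K a sa _ _).2.2.2 a2)
      rw [← act_mul a c, ← act_mul _ (a * c), ← pow_succ] at h
      exact h) (by
      rw [w0]
      exact hq)
  obtain ⟨c1, c2, -⟩ := walk
  have Sm : ∀ m : ℕ, ((a * c) ^ m : Equiv.Perm H3) '' Φ.2.1 = Φ.2.1 ↔ q ∣ m := by
    intro m
    rcases Nat.eq_zero_or_pos m with rfl | hm
    · simp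
    · have h := c1 m hm
      rw [w2 m, w0] at h
      constructor
      · intro h1
        obtain ⟨n, hn, hd⟩ := h.1 h1
        have : q = n := by exact_mod_cast hn
        rw [this]
        exact hd
      · intro h1
        exact h.2 ⟨q, rfl, h1⟩
  refine ⟨Sm, ?_⟩
  have h1 : ((a * c) ^ q : Equiv.Perm H3) '' Φ.2.1 = Φ.2.1 := (Sm q).2 (dvd_refl q)
  have h2 := c2 q (by rw [w2 q, w0]; exact h1)
  rw [w2 q, w0] at h2
  exact hFLD K hK ((a * c) ^ q) 1 (pow_sy sR q) (sy_one K) _ a1.1 (h2.trans (act_one _).symm)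

/-- walking around the face -/
lemma wf (hFLB : T_FLB) (hFLD : T_FLD) (hCYF : T_CYF) {K : Geo} {p : ℕ} (hK : IsGeo K) {Φ Φ' : Fg}
    {a b c : Equiv.Perm H3} (D : Dat K Φ Φ' a b c) (hp : (vts Φ'.2.2).encard = (p : ℕ∞)) :
    0 < p ∧ ∀ z ∈ K.V, ((a * b) ^ p) z = z := by
  have sR : Sy K (a * b) := sy_mul D.sa D.sb
  have hp0 : 0 < p := by
    rcases Nat.eq_zero_or_pos p with h | h
    · exfalso
      rw [h] at hp
      have h1 : vts Φ'.2.2 = ∅ := Set.encard_eq_zero.1 hp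
      have h2 : Φ'.1 ∈ vts Φ'.2.2 := ⟨Φ'.2.1, D.a1'.1.2.1, D.a1'.1.1⟩
      rw [h1] at h2
      exact h2
    · exact h
  obtain ⟨W, w0, w1, w2, w3⟩ : ∃ W : ℕ → Fg, (∀ m, W (4 * m) = act ((a * b) ^ m) Φ') ∧
      (∀ m, W (4 * m + 1) = act ((a * b) ^ m) Φ) ∧
      (∀ m, W (4 * m + 2) = act ((a * b) ^ m) (act a Φ)) ∧
      ∀ m, W (4 * m + 3) = act ((a * b) ^ m) (act a Φ') := by
    refine ⟨fun k => if k % 4 = 0 then act ((a * b) ^ (k / 4)) Φ' else
      if k % 4 = 1 then act ((a * b) ^ (k / 4)) Φ else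
      if k % 4 = 2 then act ((a * b) ^ (k / 4)) (act a Φ) else
      act ((a * b) ^ (k / 4)) (act a Φ'), ?_, ?_, ?_, ?_⟩
    · intro m
      have e1 : (4 * m) % 4 = 0 := by omega
      have e4 : (4 * m) / 4 = m := by omega
      simp only [if_pos e1, e4]
    · intro m
      have e1 : ¬ (4 * m + 1) % 4 = 0 := by omega
      have e2 : (4 * m + 1) % 4 = 1 := by omega
      have e4 : (4 * m + 1) / 4 = m := by omega
      simp only [if_neg e1, if_pos e2, e4]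
    · intro m
      have e1 : ¬ (4 * m + 2) % 4 = 0 := by omega
      have e2 : ¬ (4 * m + 2) % 4 = 1 := by omega
      have e3 : (4 * m + 2) % 4 = 2 := by omega
      have e4 : (4 * m + 2) / 4 = m := by omega
      simp only [if_neg e1, if_neg e2, if_pos e3, e4]
    · intro m
      have e1 : ¬ (4 * m + 3) % 4 = 0 := by omega
      have e2 : ¬ (4 * m + 3) % 4 = 1 := by omega
      have e3 : ¬ (4 * m + 3) % 4 = 2 := by omega
      have e4 : (4 * m + 3) / 4 = m := by omega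
      simp only [if_neg e1, if_neg e2, if_neg e3, e4]
  have w00 : W 0 = Φ' := by
    have h := w0 0
    rw [pow_zero, act_one] at h
    exact h
  have step : ∀ k, A0 K (W (2 * k)) (W (2 * k + 1)) ∧ A1 K (W (2 * k + 1)) (W (2 * k + 2)) := by
    intro k
    rcases Nat.even_or_odd' k with ⟨m, rfl | rfl⟩
    · have e1 : 2 * (2 * m) = 4 * m := by ring
      rw [e1, w0, w1, w2]
      have hs := pow_sy sR m
      exact ⟨(hFLB K _ hs _ _).2.1 (a0symm D.a0), (hFLB K _ hs _ _).2.2.1 D.a1⟩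
    · have e1 : 2 * (2 * m + 1) = 4 * m + 2 := by ring
      have e2 : 4 * m + 2 + 1 = 4 * m + 3 := by ring
      have e3 : 4 * m + 2 + 2 = 4 * (m + 1) := by ring
      rw [e1, e2, e3, w0, w2, w3]
      have hs := pow_sy sR m
      refine ⟨(hFLB K _ hs _ _).2.1 ((hFLB K a D.sa _ _).2.1 D.a0), ?_⟩
      have h := (hFLB K _ hs _ _).2.2.1 ((hFLB K a D.sa _ _).2.2.1 D.a1')
      rw [← act_mul a b Φ', ← act_mul _ (a * b) Φ', ← pow_succ] at h
      exact h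
  obtain ⟨c1, c2, -⟩ := hCYF K W (p : ℕ∞) hK step (by rw [w00]; exact hp)
  refine ⟨hp0, ?_⟩
  have h1 : (W (2 * (2 * p))).1 = (W 0).1 := (c1 (2 * p) (by omega)).2 ⟨p, rfl, ⟨2, by ring⟩⟩
  have h2 := c2 (2 * p) h1
  have e1 : 2 * (2 * p) = 4 * p := by ring
  rw [e1, w0, w00] at h2
  exact hFLD K hK ((a * b) ^ p) 1 (pow_sy sR p) (sy_one K) _ D.a1'.1 (h2.trans (act_one _).symm)

/-- the base face -/
lemma bf {K : Geo} (hK : IsGeo K) {x x' : H3} {f : Set (Set H3)}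
    {a b : Equiv.Perm H3} (hf : f ∈ K.F) (he : ({x, x'} : Set H3) ∈ f) (ha : a ∈ StF f) (hb : b ∈ StF f)
    (hax : a x = x) (hbx : b x' = x') (hae : a '' ({x, x'} : Set H3) ≠ {x, x'})
    (hbe : b '' ({x, x'} : Set H3) ≠ {x, x'}) : f = fc a b {x, x'} := by
  have hle : Subgroup.closure {a, b} ≤ StF f := by
    rw [Subgroup.closure_le]
    rintro x (rfl | hx)
    · exact ha
    · rw [Set.mem_singleton_iff] at hx
      rw [hx]
      exact hb
  have ma : a ∈ Subgroup.closure ({a, b} : Set (Equiv.Perm H3)) := Subgroup.subset_closure (by simp)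
  have mb : b ∈ Subgroup.closure ({a, b} : Set (Equiv.Perm H3)) := Subgroup.subset_closure (by simp)
  apply Set.Subset.antisymm
  · intro e he'
    have hp := hK.cf f hf _ he e he'
    clear he'
    induction hp with
    | refl => exact ⟨1, one_mem _, by rw [im_one]⟩
    | tail hpq hstep ih =>
      rename_i k l
      obtain ⟨g, hg, rfl⟩ := ih
      obtain ⟨hl, y, ⟨z, hz, rfl⟩, hyl⟩ := hstep
      have hge : g '' ({x, x'} : Set H3) ∈ f := stf_mem (hle hg) he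
      rcases hz with rfl | hz
      · have h2 : (g * a : Equiv.Perm H3) '' ({z, x'} : Set H3) ∈ f := stf_mem (hle (mul_mem hg ma)) he
        rcases two_set (hK.vf f hf _ hge (g z) (Set.mem_image_of_mem _ (Or.inl rfl)))
          (a := g '' {z, x'}) (b := (g * a : Equiv.Perm H3) '' {z, x'})
          ⟨hge, Set.mem_image_of_mem _ (Or.inl rfl)⟩
          ⟨h2, ⟨z, Or.inl rfl, by rw [Equiv.Perm.mul_apply, hax]⟩⟩ (by
            intro h
            apply hae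
            rw [im_mul] at h
            exact (Set.image_injective.2 g.injective h).symm) ⟨hl, hyl⟩ with h | h
        · exact ⟨g, hg, h⟩
        · exact ⟨g * a, mul_mem hg ma, h⟩
      · rw [Set.mem_singleton_iff] at hz
        subst hz
        have h2 : (g * b : Equiv.Perm H3) '' ({x, z} : Set H3) ∈ f := stf_mem (hle (mul_mem hg mb)) he
        rcases two_set (hK.vf f hf _ hge (g z) (Set.mem_image_of_mem _ (Or.inr rfl)))
          (a := g '' {x, z}) (b := (g * b : Equiv.Perm H3) '' {x, z})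
          ⟨hge, Set.mem_image_of_mem _ (Or.inr rfl)⟩
          ⟨h2, ⟨z, Or.inr rfl, by rw [Equiv.Perm.mul_apply, hbx]⟩⟩ (by
            intro h
            apply hbe
            rw [im_mul] at h
            exact (Set.image_injective.2 g.injective h).symm) ⟨hl, hyl⟩ with h | h
        · exact ⟨g, hg, h⟩
        · exact ⟨g * b, mul_mem hg mb, h⟩
  · rintro _ ⟨g, hg, rfl⟩
    exact stf_mem (hle hg) he

end Pool.Agent.H85.ODG.D12A

namespace Pool.Agent.H85.ODG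

open Pool.Agent.H57.CP Pool.Agent.H39.TO Pool.Agent.H39.OD Pool.Agent.H50.ODG
open Pool.Agent.H7.CP (u0 u1 u2 a0symm a1symm a2symm sy_inv sy_one sy_mul act_mul act_one
  act_inv_act im2_mul im_mul im_one im2_one edge_pair face_orbit StF mem_StF stf_mem two_set)
open D12A

theorem pf_D12A (hSYG : T_SYG) (hFLA : T_FLA) (hFLB : T_FLB) (hFLC : T_FLC) (hFLD : T_FLD) (hEQV : T_EQV)
    (hCYF : T_CYF) (hCYV : T_CYV) (hSIN : T_SIN) : T_D12A := by
  clear hSYG hSIN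
  intro K hK hT o0 i1 i2 hdg hfs
  obtain ⟨Φ, Φ', a, b, c, D⟩ := exd hFLA hFLB hK hT o0 i1 i2
  have hall := all hFLA hFLB hFLC hK D
  have hatv : ∀ Ψ, Fl K Ψ → Ψ.1 = Φ.1 → Eqv K Φ Ψ := fun Ψ h1 h2 => atv hEQV hK i1 i2 D.a0.1 Ψ h1 h2
  obtain ⟨e1, -, e3, -⟩ := hEQV K
  have heE : Φ.2.1 ∈ K.E := (hK.fs _ D.a0.1.2.2).1 D.a0.1.2.1
  have h0e : Φ.2.1 = Φ'.2.1 := D.a0.2.2.2.1
  have h0f : Φ.2.2 = Φ'.2.2 := D.a0.2.2.2.2
  have h0v : Φ'.1 ∈ Φ.2.1 := by
    rw [h0e]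
    exact D.a0.2.1.1
  have hxV : Φ.1 ∈ K.V := Pool.Agent.H5.CP.mem_V hK heE D.a0.1.1
  have hxV' : Φ'.1 ∈ K.V := Pool.Agent.H5.CP.mem_V hK heE h0v
  have hp : Φ.2.1 = {Φ.1, Φ'.1} := edge_pair hK heE D.a0.1.1 h0v D.a0.2.2.1
  obtain ⟨q, hq⟩ : ∃ q : ℕ, (eds K Φ.1).encard = (q : ℕ∞) := by
    have h := hdg _ ⟨Φ.1, hxV, rfl⟩
    exact ⟨_, (ENat.natCast_toNat h).symm⟩
  obtain ⟨q', hq'⟩ : ∃ q : ℕ, (eds K Φ'.1).encard = (q : ℕ∞) := by
    have h := hdg _ ⟨Φ'.1, hxV', rfl⟩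
    exact ⟨_, (ENat.natCast_toNat h).symm⟩
  obtain ⟨p, hpp⟩ : ∃ p : ℕ, (vts Φ'.2.2).encard = (p : ℕ∞) := by
    have h := hfs _ ⟨Φ'.2.2, D.a1'.1.2.2, rfl⟩
    exact ⟨_, (ENat.natCast_toNat h).symm⟩
  obtain ⟨l1, l2⟩ := wv hFLB hFLD hCYV hK hq D.sa D.sc D.a1 D.a2
  obtain ⟨m1, m2⟩ := wv hFLB hFLD hCYV hK hq' D.sb D.sc D.a1' D.a2'
  obtain ⟨n1, n2⟩ := wf hFLB hFLD hCYF hK D hpp
  obtain ⟨x, e, f⟩ := Φ
  obtain ⟨x', e', f'⟩ := Φ'
  have hee : e = e' := h0e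
  have hff : f = f' := h0f
  subst hee hff
  have hpair : e = {x, x'} := hp
  subst hpair
  have hne : x ≠ x' := D.a0.2.2.1
  have hax : a x = x := D.a1.2.2.1.symm
  have hae : a '' ({x, x'} : Set H3) ≠ {x, x'} := fun h => D.a1.2.2.2.1 h.symm
  have haf : (Set.image a) '' f = f := D.a1.2.2.2.2.symm
  have hbx : b x' = x' := D.a1'.2.2.1.symm
  have hbe : b '' ({x, x'} : Set H3) ≠ {x, x'} := fun h => D.a1'.2.2.2.1 h.symm
  have hbf : (Set.image b) '' f = f := D.a1'.2.2.2.2.symm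
  have hcx : c x = x := D.a2.2.2.1.symm
  have hcx' : c x' = x' := D.a2'.2.2.1.symm
  have hcf : f ≠ (Set.image c) '' f := D.a2.2.2.2.2
  simp only at l1 l2 m1 m2 n1 n2 hq hq' hxV hxV'
  have hS : ∀ g ∈ ({a, b, c} : Set (Equiv.Perm H3)), Sy K g := by
    intro g hg
    rcases hg with rfl | rfl | hg
    · exact D.sa
    · exact D.sb
    · rw [Set.mem_singleton_iff] at hg
      rw [hg]
      exact D.sc
  have hG : ∀ g ∈ G3 a b c, Sy K g := fun g hg => cl_sy hS hg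
  have fixp : ∀ (g : Equiv.Perm H3) (u w : H3), g u = u → ∀ n : ℕ, (g ^ n) u = u := by
    intro g u w hg n
    induction n with
    | zero => rfl
    | succ n ih => rw [pow_succ, Equiv.Perm.mul_apply, hg, ih]
  have acx : (a * c) x = x := by rw [Equiv.Perm.mul_apply, hcx, hax]
  have bcx : (b * c) x' = x' := by rw [Equiv.Perm.mul_apply, hcx', hbx]
  have conv1 : ∀ n : ℕ, ((a * c) ^ n) x' = x' ↔ q ∣ n := by
    intro n
    rw [← l1 n, Set.image_pair, fixp _ x x acx n]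
    constructor
    · intro h
      rw [h]
    · intro h
      have h1 : ((a * c) ^ n) x' ∈ ({x, x'} : Set H3) := by
        rw [← h]
        exact Or.inr rfl
      rcases h1 with h1 | h1
      · exact absurd (((a * c) ^ n).injective ((fixp _ x x acx n).trans h1.symm)) hne
      · exact h1
  have conv2 : ∀ n : ℕ, ((b * c) ^ n) x = x ↔ q' ∣ n := by
    intro n
    rw [← m1 n, Set.image_pair, fixp _ x' x bcx n]
    constructor
    · intro h
      rw [h]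
    · intro h
      have h1 : ((b * c) ^ n) x ∈ ({x, x'} : Set H3) := by
        rw [← h]
        exact Or.inl rfl
      rcases h1 with h1 | h1
      · exact h1
      · exact absurd (((b * c) ^ n).injective ((fixp _ x' x bcx n).trans h1.symm)).symm hne
  refine ⟨x, x', f, a, b, c, q, q', p, ⟨D.sa, D.sb, D.sc, D.a0.1, hne, hax, hbx, hcx, hcx', ?_, ?_, ?_, ?_, ?_, ?_,
    conv1, l2, conv2, m2, n1, n2, ?_, ?_, ?_, ?_, ?_⟩, ⟨x, hxV, hq⟩, ⟨x', hxV', hq'⟩⟩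
  · intro h
    apply hae
    rw [Set.image_pair, hax, h]
  · intro h
    apply hbe
    rw [Set.image_pair, hbx, h]
  · -- aa
    intro z hz
    have h := hFLD K hK (a * a) 1 (sy_mul D.sa D.sa) (sy_one K) _ D.a0.1
      ((sq1 hFLA hFLB hK D.sa D.a1).trans (act_one _).symm) z hz
    exact h
  · intro z hz
    have h := hFLD K hK (b * b) 1 (sy_mul D.sb D.sb) (sy_one K) _ D.a1'.1
      ((sq1 hFLA hFLB hK D.sb D.a1').trans (act_one _).symm) z hz
    exact h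
  · intro z hz
    have h := hFLD K hK (c * c) 1 (sy_mul D.sc D.sc) (sy_one K) _ D.a2.1
      ((sq2 hFLA hFLB hK D.sc D.a2).trans (act_one _).symm) z hz
    exact h
  · -- c is not the identity
    by_contra hcon
    push Not at hcon
    apply hcf
    have hid : ∀ k ∈ f, c '' k = k := by
      intro k hk
      have hkE : k ∈ K.E := (hK.fs f D.a0.1.2.2).1 hk
      ext z
      constructor
      · rintro ⟨y, hy, rfl⟩
        rw [hcon y (Pool.Agent.H5.CP.mem_V hK hkE hy)]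
        exact hy
      · intro hz
        exact ⟨z, hz, hcon z (Pool.Agent.H5.CP.mem_V hK hkE hz)⟩
    ext k
    constructor
    · intro hk
      exact ⟨k, hk, hid k hk⟩
    · rintro ⟨j, hj, rfl⟩
      rw [hid j hj]
      exact hj
  · -- nx
    rintro ⟨g, sg, hg⟩
    have hfl : Fl K (act g⁻¹ (x', {x, x'}, f)) := (hFLB K g⁻¹ (sy_inv sg) _ (x', {x, x'}, f)).1 D.a1'.1
    have hv : (act g⁻¹ (x', {x, x'}, f)).1 = (x, ({x, x'} : Set H3), f).1 := by
      change g⁻¹ x' = x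
      rw [← hg]
      exact g.symm_apply_apply x
    have h1 := hatv _ hfl hv
    apply D.no
    refine e3 _ _ _ h1 ⟨g, sg, ?_⟩
    rw [← act_mul, mul_inv_cancel, act_one]
  · -- vertices
    ext z
    constructor
    · intro hz
      obtain ⟨k, hk, hzk⟩ := hK.ve z hz
      obtain ⟨j, hj, hkj⟩ := Pool.Agent.H5.CP.exists_face hK hk
      obtain ⟨g, hg, h | h⟩ := hall (z, k, j) ⟨hzk, hkj, hj⟩
      · exact ⟨g, hg, Or.inl (congrArg Prod.fst h)⟩
      · exact ⟨g, hg, Or.inr (congrArg Prod.fst h)⟩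
    · rintro ⟨g, hg, rfl | rfl⟩
      · exact ((hG g hg).v x).2 hxV
      · exact ((hG g hg).v x').2 hxV'
  · -- edges
    ext k
    constructor
    · intro hk
      obtain ⟨z, hzk⟩ := Pool.Agent.H5.CP.exists_vertex hK hk
      obtain ⟨j, hj, hkj⟩ := Pool.Agent.H5.CP.exists_face hK hk
      obtain ⟨g, hg, h | h⟩ := hall (z, k, j) ⟨hzk, hkj, hj⟩
      · exact ⟨g, hg, congrArg (fun t => t.2.1) h⟩
      · exact ⟨g, hg, congrArg (fun t => t.2.1) h⟩
    · rintro ⟨g, hg, rfl⟩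
      exact ((hG g hg).e _).2 heE
  · -- faces
    ext j
    constructor
    · intro hj
      obtain ⟨hsub, k, hkj⟩ := hK.fs j hj
      obtain ⟨z, hzk⟩ := Pool.Agent.H5.CP.exists_vertex hK (hsub hkj)
      obtain ⟨g, hg, h | h⟩ := hall (z, k, j) ⟨hzk, hkj, hj⟩
      · exact ⟨g, hg, congrArg (fun t => t.2.2) h⟩
      · exact ⟨g, hg, congrArg (fun t => t.2.2) h⟩
    · rintro ⟨g, hg, rfl⟩
      exact ((hG g hg).f _).2 D.a0.1.2.2
  · exact bf hK D.a0.1.2.2 D.a0.1.2.1 (mem_StF.2 haf) (mem_StF.2 hbf) hax hbx hae hbe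

end Pool.Agent.H85.ODG
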